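import Pool.Agent.Helper66.GM.SEMI

/-! # FIX: fixed points of elements of `Pos` -/

open scoped ENNReal UpperHalfPlane MatrixGroups
open UpperHalfPlane Real

namespace Pool.Agent.Helper12.GM

variable {Γ : Type} [Group Γ]

theorem fix_pm (X : Fuchs Γ) (a : Γ) (p q r s : ℝ) (hp : 0 < p)
    (h : (X.M a).1 = !![p, q; r, s] ∨ (X.M a).1 = -!![p, q; r, s]) :
    (pm X a).1 = !![p, q; r, s] := by
  unfold pm
  rcases h with h | h
  · have h0 : 0 < (X.M a).1 0 0 := by rw [h]; simpa using hp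
    rw [if_pos h0, h]
  · have h0 : ¬ 0 < (X.M a).1 0 0 := by
      rw [h]
      simp only [Matrix.neg_apply, Matrix.of_apply, Matrix.cons_val', Matrix.cons_val_zero,
        Matrix.cons_val_fin_one, not_lt]
      linarith
    rw [if_neg h0]
    show -(X.M a).1 = _
    rw [h, neg_neg]

theorem fix_xi (X : Fuchs Γ) (a : Γ) (p q r s : ℝ) (hp : 0 < p)
    (h : (X.M a).1 = !![p, q; r, s] ∨ (X.M a).1 = -!![p, q; r, s]) :
    xiG X a = ((p - s) + √((p + s) ^ 2 - 4)) / (2 * r) ∧
    etG X a = ((p - s) - √((p + s) ^ 2 - 4)) / (2 * r) := by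
  unfold xiG etG xi et
  rw [fix_pm X a p q r s hp h]
  simp

theorem st_FIX (hSEMI : ST_SEMI) : ST_FIX := by
  intro Γ _ X Θ hΘ a ha
  have ha' := ha
  obtain ⟨p, q, r, s, hp, hq, hr, hs, hqr, hM⟩ := ha
  obtain ⟨h1, h2⟩ := fix_xi X.toFuchs a p q r s hp hM
  have hdet : p * s - q * r = 1 := by
    have h := (X.M a).det_coe
    rcases hM with ha | ha
    · rw [ha, Matrix.det_fin_two_of] at h
      linarith
    · rw [ha, Matrix.det_fin_two] at h
      simp at h
      linarith
  have hsq : |p - s| < √((p + s) ^ 2 - 4) := by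
    rw [Real.lt_sqrt (abs_nonneg _), sq_abs]
    have : 0 < q * r := mul_pos hq hr
    nlinarith
  rw [abs_lt] at hsq
  have hl : 0 < X.lam := lt_trans zero_lt_one X.one_lt
  refine ⟨?_, ?_, ?_, ?_⟩
  · rw [h1]
    exact div_pos (by linarith [hsq.1]) (by positivity)
  · rw [h2]
    exact div_neg_of_neg_of_pos (by linarith [hsq.2]) (by positivity)
  · intro k
    have ht : 0 < (X.lam ^ 2) ^ k := zpow_pos (by positivity) k
    have hc := semi_conj X a k p q r s hM
    obtain ⟨h3, h4⟩ := fix_xi X.toFuchs _ _ _ _ _ hp hc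
    rw [h3, h4, h1, h2]
    constructor <;> field_simp
  · intro n hn
    induction n, hn using Nat.le_induction with
    | base => rw [pow_one]; exact ha'
    | succ n hn ih =>
      rw [pow_succ]
      exact (hSEMI X Θ hΘ).1 _ ih _ ha'

end Pool.Agent.Helper12.GM
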