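import Pool.Agent.Helper12.GM.Stmts

/-! # RNK: a cycle identity gives a rank one structure -/

namespace Pool.Agent.Helper12.GM

theorem st_RNK : ST_RNK := by
  intro A hA T ξ η Λ hΛ hξ hη hT hcyc
  obtain ⟨a0⟩ := hA
  have hΛ0 : 0 < Λ := by linarith
  set Rr : A → ℤ → A → ℤ → ℝ := fun a k b l => T a b (k - l) * (Λ ^ l * ξ b - Λ ^ k * η a) ^ 2
    with hRr
  set D : A → ℤ → ℝ := fun a k => (Λ ^ k * ξ a - Λ ^ k * η a) ^ 2 with hD
  have hRpos : ∀ a k b l, 0 < Rr a k b l := by
    intro a k b l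
    have h1 : 0 < Λ ^ l * ξ b := mul_pos (zpow_pos hΛ0 _) (hξ b)
    have h2 : Λ ^ k * η a < 0 := mul_neg_of_pos_of_neg (zpow_pos hΛ0 _) (hη a)
    exact mul_pos (hT _ _ _) (pow_pos (by linarith) 2)
  have hDpos : ∀ a k, 0 < D a k := by
    intro a k
    have h1 : 0 < Λ ^ k * ξ a := mul_pos (zpow_pos hΛ0 _) (hξ a)
    have h2 : Λ ^ k * η a < 0 := mul_neg_of_pos_of_neg (zpow_pos hΛ0 _) (hη a)
    exact pow_pos (by linarith) 2
  have hid : ∀ a k b l, Rr a k b l * Rr b l a0 0 * Rr a0 0 a k = D a k * D b l * D a0 0 := by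
    intro a k b l
    have h := hcyc a b a0 k l 0
    simp only [hRr, hD]
    linear_combination h
  set p : A → ℤ → ℝ := fun a k => D a k * D a0 0 / Rr a0 0 a k with hp
  set r : A → ℤ → ℝ := fun b l => D b l / Rr b l a0 0 with hr
  have hppos : ∀ a k, 0 < p a k := fun a k =>
    div_pos (mul_pos (hDpos _ _) (hDpos _ _)) (hRpos _ _ _ _)
  have hrpos : ∀ a k, 0 < r a k := fun a k => div_pos (hDpos _ _) (hRpos _ _ _ _)
  have key1 : ∀ a k b l, Rr a k b l = p a k * r b l := by
    intro a k b l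
    have h1 := (hRpos b l a0 0).ne'
    have h2 := (hRpos a0 0 a k).ne'
    simp only [hp, hr]
    field_simp
    have h := hid a k b l
    linear_combination h
  have hshift : ∀ a k b l, Rr a (k + 1) b (l + 1) = Λ ^ 2 * Rr a k b l := by
    intro a k b l
    simp only [hRr]
    have e1 : k + 1 - (l + 1) = k - l := by ring
    rw [e1, zpow_add_one₀ hΛ0.ne', zpow_add_one₀ hΛ0.ne']
    ring
  set q : ℝ := Λ ^ 2 * r a0 0 / r a0 1 with hq
  have hq0 : 0 < q := div_pos (mul_pos (by positivity) (hrpos _ _)) (hrpos _ _)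
  have key2 : ∀ a k, p a (k + 1) = q * p a k := by
    intro a k
    have h := hshift a k a0 0
    rw [key1, key1, zero_add] at h
    have h1 := (hrpos a0 1).ne'
    rw [hq]
    field_simp
    linear_combination h
  have key3 : ∀ a (k : ℤ), p a k = q ^ k * p a 0 := by
    intro a k
    induction k using Int.induction_on with
    | zero => simp
    | succ n ih => rw [key2, ih, zpow_add_one₀ hq0.ne']; ring
    | pred n ih =>
      have h := key2 a (-(n : ℤ) - 1)
      rw [sub_add_cancel, ih] at h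
      rw [zpow_sub_one₀ hq0.ne', eq_comm, mul_comm (q ^ (-(n : ℤ)))]
      rw [mul_assoc, inv_mul_eq_iff_eq_mul₀ hq0.ne']
      exact h
  refine ⟨q, fun a => p a 0, fun b => r b 0, hq0, fun a => hppos a 0, fun b => hrpos b 0, ?_⟩
  intro a b k
  have h := key1 a k b 0
  rw [key3] at h
  simp only [hRr, sub_zero, zpow_zero, one_mul] at h
  rw [h]
  ring

end Pool.Agent.Helper12.GM
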