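import Pool.Agent.Helper12.GM.LibF

/-! # SEMI: `Pos` is a semigroup, invariant under conjugation by `c` -/

open scoped ENNReal UpperHalfPlane MatrixGroups
open UpperHalfPlane Real

namespace Pool.Agent.Helper12.GM

variable {Γ : Type} [Group Γ]

/-- the diagonal matrix with entries `t`, `t⁻¹` -/
noncomputable def semi_dg (t : ℝ) : Matrix (Fin 2) (Fin 2) ℝ := !![t, 0; 0, t⁻¹]

theorem semi_c_nat (X : NFuchs Γ) (n : ℕ) :
    (X.M (X.c ^ n)).1 = semi_dg (X.lam ^ n) ∨ (X.M (X.c ^ n)).1 = -semi_dg (X.lam ^ n) := by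
  have h1 : (X.M X.c ^ n).1 = semi_dg (X.lam ^ n) := by
    induction n with
    | zero =>
      ext i j
      fin_cases i <;> fin_cases j <;> simp [semi_dg]
    | succ n ih =>
      rw [pow_succ]
      show (X.M X.c ^ n).1 * (X.M X.c).1 = _
      rw [ih, X.Mc, semi_dg, semi_dg]
      ext i j
      fin_cases i <;> fin_cases j <;> simp [pow_succ, mul_comm]
  rcases X.M_pow X.c n with h | h
  · left; rw [h, h1]
  · right
    rw [h, ← h1]
    rfl

theorem semi_inv_dg (A : SL(2, ℝ)) (t : ℝ) (h : A.1 = semi_dg t ∨ A.1 = -semi_dg t) :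
    (A⁻¹).1 = semi_dg t⁻¹ ∨ (A⁻¹).1 = -semi_dg t⁻¹ := by
  rcases h with h | h
  · left
    rw [Matrix.SpecialLinearGroup.coe_inv, h, semi_dg, Matrix.adjugate_fin_two, semi_dg]
    simp
  · right
    rw [Matrix.SpecialLinearGroup.coe_inv, h, semi_dg, Matrix.adjugate_fin_two, semi_dg]
    ext i j
    fin_cases i <;> fin_cases j <;> simp

theorem semi_c_int (X : NFuchs Γ) (k : ℤ) :
    (X.M (X.c ^ k)).1 = semi_dg (X.lam ^ k) ∨ (X.M (X.c ^ k)).1 = -semi_dg (X.lam ^ k) := by
  obtain ⟨n, rfl | rfl⟩ := k.eq_nat_or_neg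
  · rw [zpow_natCast, zpow_natCast]
    exact semi_c_nat X n
  · rw [zpow_neg, zpow_natCast, zpow_neg, zpow_natCast]
    have h1 := semi_inv_dg _ _ (semi_c_nat X n)
    rcases X.M_inv (X.c ^ n) with h | h
    · rw [h]; exact h1
    · rw [h]
      rcases h1 with h1 | h1
      · right
        rw [← h1]; rfl
      · left
        show -((X.M (X.c ^ n))⁻¹).1 = _
        rw [h1, neg_neg]

/-- the matrix of a conjugate by a power of `c` -/
theorem semi_conj (X : NFuchs Γ) (a : Γ) (k : ℤ) (p q r s : ℝ)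
    (h : (X.M a).1 = !![p, q; r, s] ∨ (X.M a).1 = -!![p, q; r, s]) :
    (X.M (X.c ^ k * a * X.c ^ (-k))).1 = !![p, (X.lam ^ 2) ^ k * q; ((X.lam ^ 2) ^ k)⁻¹ * r, s] ∨
    (X.M (X.c ^ k * a * X.c ^ (-k))).1 =
      -!![p, (X.lam ^ 2) ^ k * q; ((X.lam ^ 2) ^ k)⁻¹ * r, s] := by
  have hl : 0 < X.lam := lt_trans zero_lt_one X.one_lt
  have ht : 0 < X.lam ^ k := zpow_pos hl k
  have e2 : (X.lam ^ 2) ^ k = X.lam ^ k * X.lam ^ k := by
    rw [pow_two, mul_zpow]
  have e3 : X.lam ^ (-k) = (X.lam ^ k)⁻¹ := zpow_neg _ _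
  have key : semi_dg (X.lam ^ k) * !![p, q; r, s] * semi_dg (X.lam ^ (-k)) =
      !![p, (X.lam ^ 2) ^ k * q; ((X.lam ^ 2) ^ k)⁻¹ * r, s] := by
    rw [e2, e3, semi_dg, semi_dg]
    have := ht.ne'
    ext i j
    fin_cases i <;> fin_cases j <;> simp <;> field_simp
  have h1 := semi_c_int X k
  have h2 := semi_c_int X (-k)
  have h3 : (X.M (X.c ^ k * a * X.c ^ (-k))).1 =
      (X.M (X.c ^ k)).1 * (X.M a).1 * (X.M (X.c ^ (-k))).1 ∨
      (X.M (X.c ^ k * a * X.c ^ (-k))).1 =
      -((X.M (X.c ^ k)).1 * (X.M a).1 * (X.M (X.c ^ (-k))).1) := by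
    rcases X.mul' (X.c ^ k * a) (X.c ^ (-k)) with h4 | h4 <;>
      rcases X.mul' (X.c ^ k) a with h5 | h5 <;> rw [h4, h5]
    · left; rfl
    · right
      show (-((X.M (X.c ^ k)).1 * (X.M a).1)) * (X.M (X.c ^ (-k))).1 = _
      rw [neg_mul]
    · right; rfl
    · left
      show -((-((X.M (X.c ^ k)).1 * (X.M a).1)) * (X.M (X.c ^ (-k))).1) = _
      rw [neg_mul, neg_neg]
  rw [← key]
  rcases h3 with h3 | h3 <;> rcases h1 with h1 | h1 <;> rcases h2 with h2 | h2 <;>
    rcases h with h | h <;> rw [h3, h1, h2, h] <;>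
    simp only [neg_mul, mul_neg, neg_neg, true_or, or_true]

theorem st_SEMI : ST_SEMI := by
  intro Γ _ X Θ hΘ
  constructor
  · rintro a ⟨p, q, r, s, hp, hq, hr, hs, hqr, ha⟩ b ⟨p', q', r', s', hp', hq', hr', hs', hqr', hb⟩
    refine ⟨p * p' + q * r', p * q' + q * s', r * p' + s * r', r * q' + s * s', by positivity,
      by positivity, by positivity, by positivity, ?_, ?_⟩
    · have hdet : p * s - q * r = 1 := by
        have h := (X.M a).det_coe
        rcases ha with ha | ha
        · rw [ha, Matrix.det_fin_two_of] at h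
          linarith
        · rw [ha, Matrix.det_fin_two] at h
          simp at h
          linarith
      have h1 : 0 < q * r := mul_pos hq hr
      have h2 : 0 < q' * r' := mul_pos hq' hr'
      have h3 : q' * r' ≤ p * q' * (s * r') := by
        have : p * q' * (s * r') = (1 + q * r) * (q' * r') := by
          have : p * s = 1 + q * r := by linarith
          calc p * q' * (s * r') = p * s * (q' * r') := by ring
            _ = _ := by rw [this]
        rw [this]
        nlinarith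
      have h4 : 0 < p * q' * (r * p') := by positivity
      have h5 : 0 < q * s' * (r * p' + s * r') := by positivity
      nlinarith
    · have key : !![p, q; r, s] * !![p', q'; r', s'] =
          !![p * p' + q * r', p * q' + q * s'; r * p' + s * r', r * q' + s * s'] := by
        rw [Matrix.mul_fin_two]
      rw [← key]
      have h3 : (X.M (a * b)).1 = (X.M a).1 * (X.M b).1 ∨
          (X.M (a * b)).1 = -((X.M a).1 * (X.M b).1) := by
        rcases X.mul' a b with h | h
        · left; rw [h]; rfl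
        · right; rw [h]; rfl
      rcases h3 with h3 | h3 <;> rcases ha with ha | ha <;> rcases hb with hb | hb <;>
        rw [h3, ha, hb] <;> simp only [neg_mul, mul_neg, neg_neg, true_or, or_true]
  · rintro a ⟨p, q, r, s, hp, hq, hr, hs, hqr, ha⟩ k
    have hl : 0 < X.lam := lt_trans zero_lt_one X.one_lt
    have ht : 0 < (X.lam ^ 2) ^ k := zpow_pos (by positivity) k
    refine ⟨p, (X.lam ^ 2) ^ k * q, ((X.lam ^ 2) ^ k)⁻¹ * r, s, hp, by positivity, by positivity,
      hs, ?_, semi_conj X a k p q r s ha⟩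
    have : (X.lam ^ 2) ^ k * q * (((X.lam ^ 2) ^ k)⁻¹ * r) = q * r := by
      field_simp
    rw [this]
    exact hqr

end Pool.Agent.Helper12.GM
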